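import Mathlib

set_option autoImplicit false

namespace Pool.Agent.Results.MP_8d002f_nt.AllThree

/-- the `r`-th `k`-gonal number `r((k-2)r-(k-4))/2`, as a rational number -/
def polygonal (k r : ℤ) : ℚ := (r : ℚ) * (((k : ℚ) - 2) * (r : ℚ) - ((k : ℚ) - 4)) / 2

/-- For each of `k = 7, 14, 37` some product of four consecutive terms of an arithmetic
progression of positive integers is a `k`-gonal number. -/
theorem result :
    ∀ k ∈ ({7, 14, 37} : Set ℤ), ∃ a d r : ℤ, 1 ≤ a ∧ 1 ≤ d ∧ 1 ≤ r ∧
      ((a * (a + d) * (a + 2 * d) * (a + 3 * d) : ℤ) : ℚ) = polygonal k r := by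
  intro k hk
  simp only [Set.mem_insert_iff, Set.mem_singleton_iff] at hk
  rcases hk with rfl | rfl | rfl
  · exact ⟨18, 1, 240, by norm_num, by norm_num, by norm_num, by norm_num [polygonal]⟩
  · exact ⟨129, 7, 7920, by norm_num, by norm_num, by norm_num, by norm_num [polygonal]⟩
  · exact ⟨69, 748, 107985, by norm_num, by norm_num, by norm_num, by norm_num [polygonal]⟩

end Pool.Agent.Results.MP_8d002f_nt.AllThree
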